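import Mathlib
import Pool.Agent.Helper52_Lin.Stmts

/-!
# Nonarchimedean absolute values on algebraically closed fields

Module D of the table `lin` (MP_e6747d_al).
-/

set_option autoImplicit false

universe w

namespace Pool.Agent.Lin52.H63

section Ext

variable {K : Type*} [Field K] (v : AbsoluteValue K ℝ)

theorem ultra (hna : IsNonarchimedean v) : IsUltrametricDist v.Completion := by
  refine IsUltrametricDist.isUltrametricDist_of_forall_norm_add_le_max_norm fun x y => ?_
  refine UniformSpace.Completion.induction_on₂ x y ?_ fun a b => ?_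
  · exact isClosed_le (by fun_prop) (by fun_prop)
  · rw [← UniformSpace.Completion.coe_add, UniformSpace.Completion.norm_coe,
      UniformSpace.Completion.norm_coe, UniformSpace.Completion.norm_coe]
    exact hna a.ofAbs b.ofAbs

theorem exists_ext_aux {C : Type*} [NontriviallyNormedField C] [CompleteSpace C]
    [IsUltrametricDist C] (f : K →+* C) (hf : ∀ x, ‖f x‖ = v x)
    (F : Type*) [Field F] [Algebra K F] [Algebra.IsAlgebraic K F] :
    ∃ w : AbsoluteValue F ℝ, IsNonarchimedean w ∧ ∀ x, w (algebraMap K F x) = v x := by
  let Ω := AlgebraicClosure C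
  let _ : Algebra K Ω := ((algebraMap C Ω).comp f).toAlgebra
  let g : F →ₐ[K] Ω := IsAlgClosed.lift
  refine ⟨{ toFun := fun x => spectralNorm C Ω (g x)
            map_mul' := fun x y => ?_
            nonneg' := fun x => spectralNorm_nonneg _
            eq_zero' := fun x => ?_
            add_le' := fun x y => ?_ }, ?_, ?_⟩
  · rw [map_mul]
    exact spectralAlgNorm_mul (g x) (g y)
  · constructor
    · intro h
      by_contra hx
      have h1 := spectralNorm_zero_lt (K := C) (y := g x)
        (by rw [map_ne_zero]; exact hx) (Algebra.IsAlgebraic.isAlgebraic _)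
      exact h1.ne' h
    · rintro rfl
      rw [map_zero]
      exact spectralNorm_zero
  · rw [map_add]
    exact isNonarchimedean_spectralNorm.add_le spectralNorm_nonneg
  · intro x y
    have h1 := isNonarchimedean_spectralNorm (K := C) (L := Ω) (g x) (g y)
    rw [← map_add] at h1
    exact h1
  · intro x
    change spectralNorm C Ω (g (algebraMap K F x)) = v x
    rw [g.commutes, ← hf]
    exact spectralNorm_extends (f x)

/-- A nontrivial nonarchimedean absolute value extends to algebraic extensions. -/
theorem exists_ext (hna : IsNonarchimedean v) (x0 : K) (hx0 : x0 ≠ 0) (hx1 : v x0 ≠ 1)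
    (F : Type*) [Field F] [Algebra K F] [Algebra.IsAlgebraic K F] :
    ∃ w : AbsoluteValue F ℝ, IsNonarchimedean w ∧ ∀ x, w (algebraMap K F x) = v x := by
  have hu := ultra v hna
  let hN : NontriviallyNormedField v.Completion := NontriviallyNormedField.ofNormNeOne
    ⟨((WithAbs.toAbs v x0 : WithAbs v) : v.Completion), by
      rw [← norm_ne_zero_iff, UniformSpace.Completion.norm_coe, WithAbs.norm_toAbs_eq]
      exact v.ne_zero hx0, by
      rw [UniformSpace.Completion.norm_coe, WithAbs.norm_toAbs_eq]
      exact hx1⟩
  refine exists_ext_aux v (C := v.Completion)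
    ((UniformSpace.Completion.coeRingHom (α := WithAbs v)).comp
      ((WithAbs.equiv v).symm : K →+* WithAbs v)) (fun x => ?_) F
  change ‖((WithAbs.toAbs v x : WithAbs v) : v.Completion)‖ = v x
  rw [UniformSpace.Completion.norm_coe, WithAbs.norm_toAbs_eq]

end Ext

/-- A field is algebraic over a rational function field whose variable is a given element that is
transcendental over the prime field. -/
theorem exists_base (F : Type w) [Field F] (α : F) (hα : Transcendental (⊥ : Subfield F) α) :
    ∃ K0 : IntermediateField (⊥ : Subfield F) F, Transcendental K0 α ∧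
      Algebra.IsAlgebraic (IntermediateField.adjoin K0 {α}) F := by
  have h1 : AlgebraicIndepOn (⊥ : Subfield F) id ({α} : Set F) := by
    change AlgebraicIndependent (⊥ : Subfield F) (fun x : ({α} : Set F) => id (x : F))
    rw [algebraicIndependent_singleton_iff ⟨α, rfl⟩]
    exact hα
  obtain ⟨t, hst, ht⟩ := exists_isTranscendenceBasis_superset h1
  have hαt : α ∈ t := hst rfl
  have hx : AlgebraicIndependent (⊥ : Subfield F) ((↑) : t → F) := ht.1
  let S : Set F := ((↑) : t → F) '' ({(⟨α, hαt⟩ : t)}ᶜ : Set t)
  refine ⟨IntermediateField.adjoin (⊥ : Subfield F) S, ?_, ?_⟩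
  · rw [IntermediateField.transcendental_adjoin_iff]
    exact hx.transcendental_adjoin (i := ⟨α, hαt⟩) (fun h => h rfl)
  · have halg := ht.isAlgebraic_field
    set K0 := IntermediateField.adjoin (⊥ : Subfield F) S
    set K1 := IntermediateField.adjoin (⊥ : Subfield F) (Set.range ((↑) : t → F))
    set K2 := IntermediateField.adjoin K0 {α}
    have hle : K1 ≤ K2.restrictScalars (⊥ : Subfield F) := by
      rw [IntermediateField.adjoin_le_iff]
      rintro _ ⟨y, rfl⟩
      by_cases hy : (y : F) = α
      · rw [hy]
        exact IntermediateField.mem_adjoin_simple_self K0 α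
      · have h2 : (y : F) ∈ K0 :=
          IntermediateField.subset_adjoin _ _ ⟨y, fun h => hy (congrArg Subtype.val h), rfl⟩
        exact IntermediateField.algebraMap_mem K2 (⟨y, h2⟩ : K0)
    let f : K1 →+* K2 := (algebraMap K1 F).codRestrict K2 (fun x => hle x.2)
    let _ : Algebra K1 K2 := f.toAlgebra
    have _ : IsScalarTower K1 K2 F := by
      refine IsScalarTower.of_algebraMap_eq (fun x => ?_)
      rw [RingHom.algebraMap_toAlgebra, IntermediateField.algebraMap_apply K2]
      exact (RingHom.codRestrict_apply (algebraMap K1 F) K2 (fun x => hle x.2) x).symm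
    exact Algebra.IsAlgebraic.tower_top (K := K1) K2

/-- D: existence of a nonarchimedean absolute value that is not one at a transcendental element. -/
theorem d : AbsStmt.{w} := by
  intro F _ _ α hα
  obtain ⟨K0, hK0, halg⟩ := exists_base F α hα
  let e := RatFunc.algEquivOfTranscendental α hK0
  have hb : (1 : NNReal) < 2 := one_lt_two
  let v0 := (Polynomial.idealX K0).adicAbv (K := RatFunc K0) hb
  let v1 : AbsoluteValue (IntermediateField.adjoin K0 {α}) ℝ :=
    v0.comp (f := (e.symm : IntermediateField.adjoin K0 {α} →+* RatFunc K0)) e.symm.injective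
  have hna : IsNonarchimedean v1 := fun x y => by
    change v0 (e.symm (x + y)) ≤ _
    rw [map_add]
    exact (Polynomial.idealX K0).isNonarchimedean_adicAbv hb _ _
  let x0 := IntermediateField.AdjoinSimple.gen K0 α
  have h0 : v1 x0 < 1 := by
    change v0 (e.symm x0) < 1
    rw [RatFunc.algEquivOfTranscendental_symm_gen, ← RatFunc.algebraMap_X,
      IsDedekindDomain.HeightOneSpectrum.adicAbv_coe_lt_one_iff, Polynomial.idealX_span]
    exact Ideal.mem_span_singleton_self _
  have hx0 : x0 ≠ 0 := by
    intro h
    have h2 : α = 0 := congrArg Subtype.val h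
    exact hα (h2 ▸ isAlgebraic_zero)
  obtain ⟨w, hw, hw1⟩ := exists_ext v1 hna x0 hx0 h0.ne F
  refine ⟨w, hw, ?_⟩
  have h3 := hw1 x0
  have h4 : algebraMap (IntermediateField.adjoin K0 {α}) F x0 = α := rfl
  rw [h4] at h3
  rw [h3]
  exact h0.ne

end Pool.Agent.Lin52.H63
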